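import Pool.Agent.Lib.MP_b0a977_co.DW.Final

/-!
# The maximum average distance for order `2d+1`, `2d` and slightly less than `2d`, diameter `d`

The conjecture of DeLaViña and Waller: among the connected graphs of order `2d+1` and diameter
`d ≥ 3` the cycle has the maximum average distance. Also the cycle is optimal for order `2d`,
`d ≥ 13`, and the cycle of length `2(d-k)` with a path of length `k` attached at one vertex is
optimal for order `2d-k`, `d ≥ 100 (k+1)`.
-/

namespace Pool.Agent.Results.MP_b0a977_co.CycleCase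

open Finset

/-- The average distance: the mean of the distance over all pairs of distinct vertices. -/
noncomputable def avgDist {n : ℕ} (G : SimpleGraph (Fin n)) : ℚ :=
  (∑ x, ∑ y ∈ univ.filter (fun y => x < y), (G.dist x y : ℚ)) / (n.choose 2 : ℚ)

/-- The average distances of all connected graphs of order `n` and diameter `d`. -/
def averages (n d : ℕ) : Set ℚ :=
  {m | ∃ G : SimpleGraph (Fin n), G.Connected ∧ G.diam = d ∧ m = avgDist G}

lemma ordered {n : ℕ} (G : SimpleGraph (Fin n)) :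
    ((∑ x, ∑ y, G.dist x y : ℕ) : ℚ)
      = 2 * ∑ x, ∑ y ∈ univ.filter (fun y => x < y), (G.dist x y : ℚ) := by
  push_cast
  simp_rw [sum_filter]
  have h1 : ∀ x y : Fin n, (G.dist x y : ℚ) = (if x < y then (G.dist x y : ℚ) else 0)
      + (if y < x then (G.dist y x : ℚ) else 0) := by
    intro x y
    rcases lt_trichotomy x y with h | h | h
    · simp [h, not_lt_of_gt h]
    · subst h; simp
    · simp [h, not_lt_of_gt h, SimpleGraph.dist_comm]
  have h2 : ∑ x, ∑ y, (G.dist x y : ℚ) = ∑ x, ∑ y, ((if x < y then (G.dist x y : ℚ) else 0)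
      + (if y < x then (G.dist y x : ℚ) else 0)) :=
    sum_congr rfl fun x _ => sum_congr rfl fun y _ => h1 x y
  rw [h2]
  simp_rw [sum_add_distrib]
  have h3 : ∑ x, ∑ y, (if y < x then (G.dist y x : ℚ) else 0)
      = ∑ x, ∑ y, (if x < y then (G.dist x y : ℚ) else 0) := sum_comm
  rw [h3]; ring

lemma avg_eq {n : ℕ} (G : SimpleGraph (Fin n)) :
    avgDist G = ((∑ x, ∑ y, G.dist x y : ℕ) : ℚ) / (2 * (n.choose 2 : ℚ)) := by
  unfold avgDist
  rw [ordered, mul_div_mul_left _ _ (by norm_num)]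

open Pool.Agent.Lib.MP_b0a977_co.DW in
lemma main {n d : ℕ} (hC : CycleS) (hn : 3 ≤ n) (hd : n / 2 = d)
    (hU : ∀ G : SimpleGraph (Fin n), G.Connected → (∀ x y, G.dist x y ≤ d) →
      ∑ x, ∑ y, G.dist x y ≤ n * (n ^ 2 / 4)) :
    IsGreatest (averages n d) ((n * (n ^ 2 / 4) : ℕ) / (2 * (n.choose 2 : ℚ))) := by
  have hC0 : (0 : ℚ) < 2 * (n.choose 2 : ℚ) := by
    have : 0 < n.choose 2 := Nat.choose_pos (by omega)
    positivity
  constructor
  · obtain ⟨G, h1, h2, h3⟩ := hC n hn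
    refine ⟨G, h1, by rw [h2, hd], ?_⟩
    rw [avg_eq, h3]
  · rintro m ⟨G, h1, h2, rfl⟩
    rw [avg_eq, div_le_div_iff_of_pos_right hC0]
    have : Nonempty (Fin n) := h1.nonempty
    have htop : G.ediam ≠ ⊤ := SimpleGraph.connected_iff_ediam_ne_top.1 h1
    have h4 := hU G h1 (fun x y => h2 ▸ SimpleGraph.dist_le_diam htop)
    exact_mod_cast h4

open Pool.Agent.Lib.MP_b0a977_co.DW in
lemma first (hU : UpperS) (hC : CycleS) (hS : NumSmallS) (hL : NumLargeS) :
    ∀ d : ℕ, 3 ≤ d → IsGreatest (averages (2 * d + 1) d) (((d : ℚ) + 1) / 2) := by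
  intro d hd
  have hN : NumI (2 * d + 1) d ∧ NumII (2 * d + 1) d := by
    rcases Nat.lt_or_ge d 60 with h | h
    · exact hS.1 d hd h
    · exact ⟨(hL d h).1, (hL d h).2.1⟩
  have h1 := main (n := 2 * d + 1) (d := d) hC (by omega) (by omega) (fun G hG hd => by
    have h4 := hU (Fin (2 * d + 1)) G d (by rw [Fintype.card_fin]; omega) hG hd
      (by rw [Fintype.card_fin]; exact hN.1) (by rw [Fintype.card_fin]; exact hN.2)
    rw [Fintype.card_fin] at h4
    exact h4)
  have h2 : ((((2 * d + 1) * ((2 * d + 1) ^ 2 / 4) : ℕ) : ℚ))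
      / (2 * (((2 * d + 1).choose 2 : ℕ) : ℚ)) = ((d : ℚ) + 1) / 2 := by
    have h3 : (2 * d + 1) ^ 2 / 4 = d * (d + 1) := by
      rw [show (2 * d + 1) ^ 2 = 4 * (d * (d + 1)) + 1 by ring]
      omega
    have hd0 : (d : ℚ) ≠ 0 := by
      have : 0 < d := by omega
      positivity
    have hd1 : (2 * (d : ℚ) + 1) ≠ 0 := by positivity
    rw [h3, Nat.cast_choose_two]
    push_cast
    rw [div_eq_div_iff (by
      rw [show (2 * (((2 * (d : ℚ) + 1)) * (2 * d + 1 - 1) / 2)) = (2 * d + 1) * (2 * d) by ring]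
      exact mul_ne_zero hd1 (mul_ne_zero two_ne_zero hd0)) two_ne_zero]
    ring
  rw [h2] at h1
  exact h1

open Pool.Agent.Lib.MP_b0a977_co.DW in
lemma even (hU : UpperS) (hU3 : Upper3S) (hC : CycleS) (hS : NumSmallS) (hL : NumLargeS) :
    ∀ d : ℕ, 13 ≤ d → IsGreatest (averages (2 * d) d) ((d : ℚ) ^ 2 / (2 * d - 1)) := by
  intro d hd
  have h1 := main (n := 2 * d) (d := d) hC (by omega) (by omega) (fun G hG hd' => by
    rcases Nat.lt_or_ge d 28 with h28 | h28
    · have h4 := hU3 (Fin (2 * d)) G d hd h28 (by rw [Fintype.card_fin]) hG hd'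
      rw [Fintype.card_fin] at h4
      exact h4
    · have hN : NumI (2 * d) d ∧ NumII (2 * d) d := by
        rcases Nat.lt_or_ge d 60 with h | h
        · exact hS.2 d h28 h
        · exact ⟨(hL d h).2.2.1, (hL d h).2.2.2⟩
      have h4 := hU (Fin (2 * d)) G d (by rw [Fintype.card_fin]; omega) hG hd'
        (by rw [Fintype.card_fin]; exact hN.1) (by rw [Fintype.card_fin]; exact hN.2)
      rw [Fintype.card_fin] at h4
      exact h4)
  have h2 : ((((2 * d) * ((2 * d) ^ 2 / 4) : ℕ) : ℚ))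
      / (2 * (((2 * d).choose 2 : ℕ) : ℚ)) = (d : ℚ) ^ 2 / (2 * d - 1) := by
    have h3 : (2 * d) ^ 2 / 4 = d * d := by
      rw [show (2 * d) ^ 2 = 4 * (d * d) by ring]
      omega
    have hd2 : (13 : ℚ) ≤ d := by exact_mod_cast hd
    have hd0 : (d : ℚ) ≠ 0 := by linarith
    have hd1 : (2 * (d : ℚ) - 1) ≠ 0 := by linarith
    rw [h3, Nat.cast_choose_two]
    push_cast
    rw [div_eq_div_iff (by
      rw [show (2 * ((2 * (d : ℚ)) * (2 * d - 1) / 2)) = (2 * d) * (2 * d - 1) by ring]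
      exact mul_ne_zero (mul_ne_zero two_ne_zero hd0) hd1) hd1]
    ring
  rw [h2] at h1
  exact h1

open Pool.Agent.Lib.MP_b0a977_co.DW in
lemma second (hU : Upper2S) (hT : TadS) : ∀ k d : ℕ, 100 * (k + 1) ≤ d →
    IsGreatest (averages (2 * d - k) d)
      (((d : ℚ) * (d - k) ^ 2 + k * (k + 1) * (6 * d - 5 * k - 1) / 6)
        / ((2 * d - k).choose 2 : ℚ)) := by
  intro k d hd
  obtain ⟨a, rfl⟩ : ∃ a, d = a + k := ⟨d - k, by omega⟩
  have hn : 2 * (a + k) - k = 2 * a + k := by omega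
  rw [hn]
  have hC0 : (0 : ℚ) < ((2 * a + k).choose 2 : ℚ) := by
    have : 0 < (2 * a + k).choose 2 := Nat.choose_pos (by omega)
    positivity
  have hval : ∀ S : ℕ, (3 * (S : ℚ) + k * (k + 1) * (2 * k + 1)
      = 6 * (a + k) * a ^ 2 + 3 * (2 * a + k) * k * (k + 1)) →
      (S : ℚ) / (2 * ((2 * a + k).choose 2 : ℚ))
        = ((((a + k : ℕ) : ℚ)) * (((a + k : ℕ) : ℚ) - k) ^ 2
          + k * (k + 1) * (6 * ((a + k : ℕ) : ℚ) - 5 * k - 1) / 6)
          / ((2 * a + k).choose 2 : ℚ) := by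
    intro S hS
    rw [div_eq_div_iff (by positivity) (by positivity)]
    push_cast
    have : (S : ℚ) = 2 * (((a : ℚ) + k) * ((a : ℚ) + k - k) ^ 2
          + k * (k + 1) * (6 * ((a : ℚ) + k) - 5 * k - 1) / 6) := by
      linarith
    rw [this]
    ring
  constructor
  · obtain ⟨G, h1, h2, h3⟩ := hT a k (by omega)
    refine ⟨G, h1, h2, ?_⟩
    rw [avg_eq, hval]
    exact_mod_cast h3
  · rintro m ⟨G, h1, h2, rfl⟩
    have : Nonempty (Fin (2 * a + k)) := h1.nonempty
    have htop : G.ediam ≠ ⊤ := SimpleGraph.connected_iff_ediam_ne_top.1 h1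
    have h4 := hU (Fin (2 * a + k)) G (a + k) k h1
      (fun x y => h2 ▸ SimpleGraph.dist_le_diam htop)
      (by
        obtain ⟨x, y, h⟩ := SimpleGraph.exists_dist_eq_diam (G := G)
        exact ⟨x, y, h.trans h2⟩)
      (by rw [Fintype.card_fin]; omega) hd
    obtain ⟨S, hS⟩ : ∃ S : ℕ, S = ∑ x, ∑ y, G.dist x y := ⟨_, rfl⟩
    have h5 : (S : ℝ) ≤ tad (a + k) k := by
      rw [hS]
      push_cast
      exact h4
    unfold tad at h5
    have h6 : 3 * (S : ℝ) + k * (k + 1) * (2 * k + 1)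
        ≤ 6 * (a + k) * a ^ 2 + 3 * (2 * a + k) * k * (k + 1) := by
      push_cast at h5
      nlinarith
    have h7 : 3 * S + k * (k + 1) * (2 * k + 1)
        ≤ 6 * (a + k) * a ^ 2 + 3 * (2 * a + k) * k * (k + 1) := by
      exact_mod_cast h6
    have h8 : 3 * (S : ℚ) + k * (k + 1) * (2 * k + 1)
        ≤ 6 * (a + k) * a ^ 2 + 3 * (2 * a + k) * k * (k + 1) := by
      exact_mod_cast h7
    rw [avg_eq, ← hS, div_le_div_iff₀ (by positivity) (by positivity)]
    push_cast
    have h9 : (S : ℚ) ≤ 2 * (((a : ℚ) + k) * ((a : ℚ) + k - k) ^ 2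
          + k * (k + 1) * (6 * ((a : ℚ) + k) - 5 * k - 1) / 6) := by
      linarith
    nlinarith

/-- The Wiener index of the cycle of length `c` with a path of length `k` attached at one
vertex: the pairs on the cycle, the pairs of a vertex of the cycle and a vertex of the path, the
pairs on the path. -/
def cyclePathWiener (c k : ℕ) : ℚ :=
  (c : ℚ) * (c ^ 2 / 4 : ℕ) / 2 + (k * (c ^ 2 / 4 : ℕ) + (c : ℚ) * (k * (k + 1) / 2))
    + ((k : ℚ) - 1) * k * (k + 1) / 6

open Pool.Agent.Lib.MP_b0a977_co.DW in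
theorem result (n d k : ℕ) (hd : 3 ≤ d) (hn : n ≤ 2 * d + 1) (hk : k = 2 * d - n)
    (h : n = 2 * d + 1 ∨ (n = 2 * d ∧ 13 ≤ d) ∨ 100 * (k + 1) ≤ d) :
    IsGreatest (averages n d) (cyclePathWiener (n - k) k / (n.choose 2 : ℚ)) := by
  have hd0 : (3 : ℚ) ≤ d := by exact_mod_cast hd
  by_cases h1 : n = 2 * d + 1
  · subst h1
    have hk0 : k = 0 := by omega
    subst hk0
    have h2 := first upperF Cyc.cycleS NumSmall.num_small numLarge d hd
    have h3 : (2 * d + 1) ^ 2 / 4 = d * (d + 1) := by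
      rw [show (2 * d + 1) ^ 2 = 4 * (d * (d + 1)) + 1 by ring]
      omega
    have h4 : cyclePathWiener (2 * d + 1 - 0) 0 / ((2 * d + 1).choose 2 : ℚ)
        = ((d : ℚ) + 1) / 2 := by
      unfold cyclePathWiener
      rw [Nat.sub_zero, h3, Nat.cast_choose_two]
      push_cast
      rw [div_eq_div_iff (by
        rw [show (2 * (d : ℚ) + 1) * (2 * d + 1 - 1) / 2 = (2 * d + 1) * d by ring]
        positivity) two_ne_zero]
      ring
    rw [h4]
    exact h2
  · by_cases h5 : n = 2 * d ∧ 13 ≤ d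
    · obtain ⟨h5, h6⟩ := h5
      subst h5
      have hk0 : k = 0 := by omega
      subst hk0
      have h2 := even upperF upper3F Cyc.cycleS NumSmall.num_small numLarge d h6
      have h3 : (2 * d) ^ 2 / 4 = d * d := by
        rw [show (2 * d) ^ 2 = 4 * (d * d) by ring]
        omega
      have h4 : cyclePathWiener (2 * d - 0) 0 / ((2 * d).choose 2 : ℚ)
          = (d : ℚ) ^ 2 / (2 * d - 1) := by
        unfold cyclePathWiener
        rw [Nat.sub_zero, h3, Nat.cast_choose_two]
        have h7 : (2 * (d : ℚ) - 1) ≠ 0 := by linarith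
        have h8 : (d : ℚ) ≠ 0 := by linarith
        push_cast
        rw [div_eq_div_iff (by
          rw [show (2 * (d : ℚ)) * (2 * d - 1) / 2 = d * (2 * d - 1) by ring]
          exact mul_ne_zero h8 h7) h7]
        ring
      rw [h4]
      exact h2
    · have h6 : 100 * (k + 1) ≤ d := by tauto
      obtain ⟨a, rfl⟩ : ∃ a, d = a + k := ⟨d - k, by omega⟩
      have hn2 : n = 2 * (a + k) - k := by omega
      have h2 := second upper2F TadH.tadS k (a + k) h6
      rw [← hn2] at h2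
      have h3 : cyclePathWiener (n - k) k = (((a + k : ℕ) : ℚ) * (((a + k : ℕ) : ℚ) - k) ^ 2
          + k * (k + 1) * (6 * ((a + k : ℕ) : ℚ) - 5 * k - 1) / 6) := by
        have h7 : n - k = 2 * a := by omega
        have h8 : (2 * a) ^ 2 / 4 = a * a := by
          rw [show (2 * a) ^ 2 = 4 * (a * a) by ring]
          omega
        unfold cyclePathWiener
        rw [h7, h8]
        push_cast
        ring
      rw [h3]
      exact h2

end Pool.Agent.Results.MP_b0a977_co.CycleCase
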