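import Pool.Agent.Lib.MP_b0a977_co.Diam
import Pool.Agent.Lib.MP_b0a977_co.Spur

/-!
# The maximum average distance for given order and diameter: the range of the double broom
-/

namespace Pool.Agent.Results.MP_b0a977_co.DoubleBroomRange

open Finset

/-- The average distance: the mean of the distance over all pairs of distinct vertices. -/
noncomputable def avgDist {n : ℕ} (G : SimpleGraph (Fin n)) : ℚ :=
  (∑ x, ∑ y ∈ univ.filter (fun y => x < y), (G.dist x y : ℚ)) / (n.choose 2 : ℚ)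

/-- The average distances of all connected graphs of order `n` and diameter `d`. -/
def averages (n d : ℕ) : Set ℚ :=
  {m | ∃ G : SimpleGraph (Fin n), G.Connected ∧ G.diam = d ∧ m = avgDist G}

/-- The Wiener index of the balanced double broom of diameter `d` and order `d + 1 + e`. -/
def broomWiener (d e : ℕ) : ℚ :=
  d * (d + 1) * (d + 2) / 6 + e * (d * (d + 1) / 2) + e * (e + 1)
    + ((e ^ 2 / 4 : ℕ) : ℚ) * (d - 2)

lemma ordered {n : ℕ} (G : SimpleGraph (Fin n)) :
    ((∑ x, ∑ y, (G.dist x y : ℤ) : ℤ) : ℚ)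
      = 2 * ∑ x, ∑ y ∈ univ.filter (fun y => x < y), (G.dist x y : ℚ) := by
  push_cast
  simp_rw [sum_filter]
  have h1 : ∀ x y : Fin n, (G.dist x y : ℚ) = (if x < y then (G.dist x y : ℚ) else 0)
      + (if y < x then (G.dist y x : ℚ) else 0) := by
    intro x y
    rcases lt_trichotomy x y with h | h | h
    · simp [h, not_lt_of_gt h]
    · subst h; simp
    · simp [h, not_lt_of_gt h, SimpleGraph.dist_comm]
  have h2 : ∑ x, ∑ y, (G.dist x y : ℚ) = ∑ x, ∑ y, ((if x < y then (G.dist x y : ℚ) else 0)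
      + (if y < x then (G.dist y x : ℚ) else 0)) :=
    sum_congr rfl fun x _ => sum_congr rfl fun y _ => h1 x y
  rw [h2]
  simp_rw [sum_add_distrib]
  have h3 : ∑ x, ∑ y, (if y < x then (G.dist y x : ℚ) else 0)
      = ∑ x, ∑ y, (if x < y then (G.dist x y : ℚ) else 0) := sum_comm
  rw [h3]; ring

lemma avg_le {n : ℕ} (hn : 2 ≤ n) (G : SimpleGraph (Fin n)) (B : ℚ) :
    avgDist G ≤ B / (n.choose 2 : ℚ) ↔ ((3 * ∑ x, ∑ y, (G.dist x y : ℤ) : ℤ) : ℚ) ≤ 6 * B := by
  have hC : (0 : ℚ) < (n.choose 2 : ℚ) := by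
    exact_mod_cast Nat.choose_pos hn
  unfold avgDist
  rw [div_le_div_iff_of_pos_right hC, Int.cast_mul, ordered]
  push_cast
  constructor <;> intro h <;> linarith

lemma avg_eq {n : ℕ} (G : SimpleGraph (Fin n)) (B : ℚ)
    (h : ((3 * ∑ x, ∑ y, (G.dist x y : ℤ) : ℤ) : ℚ) = 6 * B) :
    avgDist G = B / (n.choose 2 : ℚ) := by
  unfold avgDist
  rw [Int.cast_mul, ordered] at h
  push_cast at h
  congr 1
  linarith

/-- For order `n` and diameter `d` put `e = n - d - 1`.  If `e² + 96 e ≤ 8 d`, the maximum average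
distance is that of the balanced double broom; if `d ≥ 4` and `8 d < e² + 12`, it is larger. -/
theorem result (n d : ℕ) (hd : 1 ≤ d) (hn : d < n) :
    ((n - d - 1) ^ 2 + 96 * (n - d - 1) ≤ 8 * d →
      IsGreatest (averages n d) (broomWiener d (n - d - 1) / (n.choose 2 : ℚ))) ∧
    (4 ≤ d → 8 * d < (n - d - 1) ^ 2 + 12 →
      ∃ m ∈ averages n d, broomWiener d (n - d - 1) / (n.choose 2 : ℚ) < m) := by
  obtain ⟨e, rfl⟩ : ∃ e, n = d + 1 + e := ⟨n - d - 1, by omega⟩
  rw [show d + 1 + e - d - 1 = e by omega]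
  have hF : ∀ a b : ℕ, e = a + b → (a = b ∨ a = b + 1 ∨ b = a + 1) → e ^ 2 / 4 = a * b := by
    intro a b h1 h2
    subst h1
    rcases h2 with rfl | rfl | rfl
    · rw [show (a + a) ^ 2 = 4 * (a * a) by ring]; omega
    · rw [show (b + 1 + b) ^ 2 = 4 * ((b + 1) * b) + 1 by ring]; omega
    · rw [show (a + (a + 1)) ^ 2 = 4 * (a * (a + 1)) + 1 by ring]; omega
  refine ⟨fun he => ⟨?_, ?_⟩, fun hd4 he => ?_⟩
  · -- the balanced double broom
    have hdd : 2 ≤ d ∨ (e / 2 = 0 ∧ e - e / 2 = 0) := by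
      rcases Nat.eq_zero_or_pos e with h | h
      · right; omega
      · left; nlinarith
    obtain ⟨a, b, hab, ha, hb⟩ : ∃ a b, e = a + b ∧ a = e / 2 ∧ b = e - e / 2 :=
      ⟨e / 2, e - e / 2, by omega, rfl, rfl⟩
    rw [← hb, ← ha] at hdd
    have hFab := hF a b hab (by omega)
    obtain ⟨G, h1, h2, h3⟩ := Pool.Agent.Lib.MP_b0a977_co.broom d a b hd hdd
    unfold broomWiener
    rw [hFab]
    subst hab
    refine ⟨G, h1, h2, (avg_eq G _ ?_).symm⟩
    rw [h3]
    push_cast
    ring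
  · rintro m ⟨G, h1, h2, rfl⟩
    rw [avg_le (by omega)]
    have h3 := Pool.Agent.Lib.MP_b0a977_co.upper_diam h1 h2 e (Fintype.card_fin _) he
    unfold broomWiener
    generalize e ^ 2 / 4 = F at h3 ⊢
    have h4 : ((3 * ∑ x, ∑ y, (G.dist x y : ℤ) : ℤ) : ℚ) ≤ ((d * (d + 1) * (d + 2)
      + 3 * (e * (d * (d + 1)) + 2 * e * (e + 1) + 2 * (F : ℤ) * (d - 2)) : ℤ) : ℚ) := by
      exact_mod_cast h3
    refine h4.trans (le_of_eq ?_)
    push_cast
    ring
  · -- part of the leaves of one end moved to a spur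
    have he5 : 5 ≤ e := by
      by_contra hcon
      have : e ≤ 4 := by omega
      nlinarith
    obtain ⟨a, b, hab, ha, hb⟩ : ∃ a b, e = a + b ∧ a = e - e / 2 ∧ b = e / 2 :=
      ⟨e - e / 2, e / 2, by omega, rfl, rfl⟩
    have hFab := hF a b hab (by omega)
    obtain ⟨r, a', hr, ha'⟩ : ∃ r a', r = a / 2 ∧ a = a' + 1 + r :=
      ⟨a / 2, a - 1 - a / 2, rfl, by omega⟩
    obtain ⟨G, h1, h2, h3⟩ :=
      Pool.Agent.Lib.MP_b0a977_co.spurBroom d a' b r hd4 (by omega)
    -- the gain is positive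
    have hgain : (0 : ℤ) < 6 + 6 * r - 2 * d - 2 * b + 2 * a' + 4 * a' * r := by
      have h4 : (8 * d : ℤ) < e ^ 2 + 12 := by exact_mod_cast he
      have hra : a = 2 * r ∨ a = 2 * r + 1 := by omega
      have hba : b = a ∨ a = b + 1 := by omega
      rcases hra with h | h <;> rcases hba with h' | h'
      · have e1 : (e : ℤ) = 4 * r := by omega
        have e2 : (a' : ℤ) = r - 1 := by omega
        have e3 : (b : ℤ) = 2 * r := by omega
        rw [e1] at h4
        rw [e2, e3]
        nlinarith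
      · have e1 : (e : ℤ) = 4 * r - 1 := by omega
        have e2 : (a' : ℤ) = r - 1 := by omega
        have e3 : (b : ℤ) = 2 * r - 1 := by omega
        rw [e1] at h4
        rw [e2, e3]
        nlinarith
      · have e1 : (e : ℤ) = 4 * r + 2 := by omega
        have e2 : (a' : ℤ) = r := by omega
        have e3 : (b : ℤ) = 2 * r + 1 := by omega
        rw [e1] at h4
        rw [e2, e3]
        nlinarith
      · have e1 : (e : ℤ) = 4 * r + 1 := by omega
        have e2 : (a' : ℤ) = r := by omega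
        have e3 : (b : ℤ) = 2 * r := by omega
        rw [e1] at h4
        rw [e2, e3]
        nlinarith
    unfold broomWiener
    rw [hFab]
    subst ha'
    subst hab
    refine ⟨avgDist G, ⟨G, h1, h2, rfl⟩, ?_⟩
    rw [← not_le, avg_le (by omega), not_le, h3]
    have hgain' : (0 : ℚ) < 6 + 6 * r - 2 * d - 2 * b + 2 * a' + 4 * a' * r := by
      exact_mod_cast hgain
    push_cast
    linarith

end Pool.Agent.Results.MP_b0a977_co.DoubleBroomRange
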