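import Pool.Agent.Lib.MP_b0a977_co.Mid.Upper2
import Pool.Agent.Lib.MP_b0a977_co.Mid.Lower2

/-!
# The maximum average distance for given order and diameter: the range `√d ≪ n - d ≪ d`
-/

namespace Pool.Agent.Results.MP_b0a977_co.MiddleRange

open Finset

/-- The average distance: the mean of the distance over all pairs of distinct vertices. -/
noncomputable def avgDist {n : ℕ} (G : SimpleGraph (Fin n)) : ℚ :=
  (∑ x, ∑ y ∈ univ.filter (fun y => x < y), (G.dist x y : ℚ)) / (n.choose 2 : ℚ)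

/-- The average distances of all connected graphs of order `n` and diameter `d`. -/
def averages (n d : ℕ) : Set ℚ :=
  {m | ∃ G : SimpleGraph (Fin n), G.Connected ∧ G.diam = d ∧ m = avgDist G}

lemma ordered {n : ℕ} (G : SimpleGraph (Fin n)) :
    ∑ x, ∑ y, (G.dist x y : ℝ) = 2 * ∑ x, ∑ y ∈ univ.filter (fun y => x < y), (G.dist x y : ℝ) := by
  simp_rw [sum_filter]
  have h1 : ∀ x y : Fin n, (G.dist x y : ℝ) = (if x < y then (G.dist x y : ℝ) else 0)
      + (if y < x then (G.dist y x : ℝ) else 0) := by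
    intro x y
    rcases lt_trichotomy x y with h | h | h
    · simp [h, not_lt_of_gt h]
    · subst h; simp
    · simp [h, not_lt_of_gt h, SimpleGraph.dist_comm]
  have h2 : ∑ x, ∑ y, (G.dist x y : ℝ) = ∑ x, ∑ y, ((if x < y then (G.dist x y : ℝ) else 0)
      + (if y < x then (G.dist y x : ℝ) else 0)) :=
    sum_congr rfl fun x _ => sum_congr rfl fun y _ => h1 x y
  rw [h2]
  simp_rw [sum_add_distrib]
  have h3 : ∑ x, ∑ y, (if y < x then (G.dist y x : ℝ) else 0)
      = ∑ x, ∑ y, (if x < y then (G.dist x y : ℝ) else 0) := sum_comm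
  rw [h3]; ring

/-- the average distance times the number of pairs is half of the sum over ordered pairs -/
lemma avg_mul {n : ℕ} (hn : 2 ≤ n) (G : SimpleGraph (Fin n)) :
    (avgDist G : ℝ) * (n.choose 2 : ℕ) = (∑ x, ∑ y, (G.dist x y : ℝ)) / 2 := by
  have h0 : ((n.choose 2 : ℕ) : ℝ) ≠ 0 := by
    have : 0 < n.choose 2 := Nat.choose_pos hn
    positivity
  unfold avgDist
  push_cast
  rw [ordered]
  field_simp

/-- The middle range: for `√d ≪ e ≪ d` the maximum Wiener index of the connected graphs of order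
`d + 1 + e` and diameter `d` is
`d(d+1)(d+2)/6 + e d(d+1)/2 + d e²/4 + (1/56 + o(1)) e⁴/d`. -/
theorem result (ε : ℝ) (hε : 0 < ε) : ∃ K : ℕ, ∀ d e : ℕ, 1 ≤ d → K * d ≤ e ^ 2 → K * e ≤ d →
    ∃ M : ℚ, IsGreatest (averages (d + 1 + e) d) M ∧
      |(M : ℝ) * ((d + 1 + e).choose 2 : ℕ)
        - ((d : ℝ) * (d + 1) * (d + 2) / 6 + e * d * (d + 1) / 2 + d * e ^ 2 / 4
            + e ^ 4 / (56 * d))| ≤ ε * (e ^ 4 / d) := by
  set η : ℝ := min ε (1 / 16) with hη
  have hη0 : 0 < η := lt_min hε (by norm_num)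
  have hηa : η ≤ ε := min_le_left _ _
  have hηb : η ≤ 1 / 16 := min_le_right _ _
  obtain ⟨K, hK⟩ := exists_nat_gt (16 / η)
  obtain ⟨J, hJ⟩ : ∃ J : ℕ, ((1 : ℝ) / 8) ^ J < ε := exists_pow_lt_of_lt_one hε (by norm_num)
  refine ⟨K, fun d e hd hKd hKe => ?_⟩
  have hKη : 16 < η * K := by
    rw [div_lt_iff₀ hη0] at hK
    linarith
  have hK256 : (256 : ℝ) ≤ K := by
    have h1 : η * K ≤ 1 / 16 * K := mul_le_mul_of_nonneg_right hηb (Nat.cast_nonneg K)
    linarith
  have hK256' : 256 ≤ K := by exact_mod_cast hK256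
  have hK0 : (0 : ℝ) < K := by linarith
  have he1 : 1 ≤ e := by
    rcases Nat.eq_zero_or_pos e with h | h
    · exfalso
      subst h
      have : 0 < K * d := Nat.mul_pos (by omega) (by omega)
      simp at hKd
      omega
    · exact h
  have hde : 256 * e ≤ d := (Nat.mul_le_mul_right e hK256').trans hKe
  have hd0 : (0 : ℝ) < d := by exact_mod_cast (by omega : 0 < d)
  have he0 : (0 : ℝ) < e := by exact_mod_cast (by omega : 0 < e)
  have he1' : (1 : ℝ) ≤ e := by exact_mod_cast he1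
  have hKd' : (K : ℝ) * d ≤ e ^ 2 := by exact_mod_cast hKd
  have hKe' : (K : ℝ) * e ≤ d := by exact_mod_cast hKe
  obtain ⟨q, hq⟩ : ∃ q : ℝ, q = (e : ℝ) ^ 4 / d := ⟨_, rfl⟩
  have hq0 : 0 < q := by rw [hq]; positivity
  -- `K e² ≤ q`
  have hqe : (K : ℝ) * e ^ 2 ≤ q := by
    rw [hq, le_div_iff₀ hd0]
    calc (K : ℝ) * (e : ℝ) ^ 2 * d = (K * d) * (e : ℝ) ^ 2 := by ring
      _ ≤ (e : ℝ) ^ 2 * (e : ℝ) ^ 2 := mul_le_mul_of_nonneg_right hKd' (by positivity)
      _ = (e : ℝ) ^ 4 := by ring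
  -- `16 e² ≤ ε q`
  have hqε : 16 * (e : ℝ) ^ 2 ≤ ε * q := by
    calc 16 * (e : ℝ) ^ 2 ≤ η * K * (e : ℝ) ^ 2 := mul_le_mul_of_nonneg_right hKη.le (by positivity)
      _ = η * (K * (e : ℝ) ^ 2) := by ring
      _ ≤ η * q := mul_le_mul_of_nonneg_left hqe hη0.le
      _ ≤ ε * q := mul_le_mul_of_nonneg_right hηa hq0.le
  have h16 : 16 * (e : ℝ) ≤ η * d := by
    calc 16 * (e : ℝ) ≤ η * K * e := mul_le_mul_of_nonneg_right hKη.le he0.le
      _ = η * (K * e) := by ring
      _ ≤ η * d := mul_le_mul_of_nonneg_left hKe' hη0.le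
  have hdq : (d : ℝ) ≤ e ^ 2 := by
    have : (d : ℝ) ≤ K * d := by
      calc (d : ℝ) = 1 * d := by ring
        _ ≤ K * d := mul_le_mul_of_nonneg_right (by linarith) hd0.le
    linarith
  -- the maximum
  obtain ⟨G, hG1, hG2, hG3⟩ := Pool.Agent.Lib.MP_b0a977_co.Mid.lower2 d e J (by omega) (by omega)
  have hfin : (averages (d + 1 + e) d).Finite := by
    have : averages (d + 1 + e) d ⊆ Set.range (fun G : SimpleGraph (Fin (d + 1 + e)) => avgDist G) := by
      rintro m ⟨G, _, _, rfl⟩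
      exact ⟨G, rfl⟩
    exact (Set.finite_range _).subset this
  obtain ⟨M, hM, hMmax⟩ := Set.exists_max_image (averages (d + 1 + e) d) id hfin ⟨_, G, hG1, hG2, rfl⟩
  refine ⟨M, ⟨hM, fun m hm => hMmax m hm⟩, ?_⟩
  have hn2 : 2 ≤ d + 1 + e := by omega
  have hq56 : (e : ℝ) ^ 4 / (56 * d) = q / 56 := by rw [hq]; field_simp
  have hq28 : (e : ℝ) ^ 4 / (28 * d) = q / 28 := by rw [hq]; field_simp
  rw [← hq, hq56, abs_le]
  constructor
  · -- lower bound
    have h1 : avgDist G ≤ M := hMmax _ ⟨G, hG1, hG2, rfl⟩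
    have h2 : (avgDist G : ℝ) ≤ M := by exact_mod_cast h1
    have h3 := avg_mul hn2 G
    have h4 : (avgDist G : ℝ) * ((d + 1 + e).choose 2 : ℕ) ≤ (M : ℝ) * ((d + 1 + e).choose 2 : ℕ) :=
      mul_le_mul_of_nonneg_right h2 (Nat.cast_nonneg _)
    rw [hq28] at hG3
    have h5 : q / 28 * (1 - 2 * (1 / 8) ^ J - ((e : ℝ) + 1) / d) ≥ q / 28 - q * (ε / 2) := by
      have e1 : ((e : ℝ) + 1) / d ≤ ε := by
        rw [div_le_iff₀ hd0]
        have : η * d ≤ ε * d := mul_le_mul_of_nonneg_right hηa hd0.le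
        linarith
      have e2 : q / 28 * (2 * (1 / 8) ^ J + ((e : ℝ) + 1) / d) ≤ q / 28 * (2 * ε + ε) :=
        mul_le_mul_of_nonneg_left (by linarith) (by positivity)
      have e3 : 0 < q * ε := by positivity
      nlinarith
    have h6 : 0 < ε * q := by positivity
    nlinarith
  · -- upper bound
    obtain ⟨G', hc', hd', rfl⟩ := hM
    have h1 := Pool.Agent.Lib.MP_b0a977_co.upper_diam2 (G := G') hc' hd' e (by simp) (by omega)
      hη0 hηb h16
    have h3 := avg_mul hn2 G'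
    rw [h3]
    have h4 : (e : ℝ) ^ 4 / (28 * ((1 - 3 * η) * d)) ≤ q / 28 * (1 + 4 * η) := by
      have e0 : 0 < 1 - 3 * η := by linarith
      have e1 : (e : ℝ) ^ 4 / (28 * ((1 - 3 * η) * d)) = q / 28 / (1 - 3 * η) := by
        rw [hq]; field_simp
      rw [e1, div_le_iff₀ e0]
      have e2 : 1 ≤ (1 + 4 * η) * (1 - 3 * η) := by nlinarith
      calc q / 28 = q / 28 * 1 := by ring
        _ ≤ q / 28 * ((1 + 4 * η) * (1 - 3 * η)) := mul_le_mul_of_nonneg_left e2 (by positivity)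
        _ = _ := by ring
    have h5 : q * η ≤ q * ε := mul_le_mul_of_nonneg_left hηa hq0.le
    have h6 : 0 < ε * q := by positivity
    have h7 : (e : ℝ) ≤ e ^ 2 := by nlinarith
    nlinarith

end Pool.Agent.Results.MP_b0a977_co.MiddleRange
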