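import Pool.Agent.Lib.MP_b0a977_co.Sharp.Unif
import Pool.Agent.Lib.MP_b0a977_co.H62.UbD

/-!
# The maximum average distance for given order and diameter: the second order term, for all `d ≥ 4`
-/

namespace Pool.Agent.Results.MP_b0a977_co.SecondOrder

open Finset

/-- The average distance: the mean of the distance over all pairs of distinct vertices. -/
noncomputable def avgDist {n : ℕ} (G : SimpleGraph (Fin n)) : ℚ :=
  (∑ x, ∑ y ∈ univ.filter (fun y => x < y), (G.dist x y : ℚ)) / (n.choose 2 : ℚ)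

/-- The average distances of all connected graphs of order `n` and diameter `d`. -/
def averages (n d : ℕ) : Set ℚ :=
  {m | ∃ G : SimpleGraph (Fin n), G.Connected ∧ G.diam = d ∧ m = avgDist G}

/-- The constant `κ = √((175 - √7)/189) = 0.954949…`. -/
noncomputable def kappa : ℝ := √((175 - √7) / 189)

/-- The weight `α_i`: `1` if `d = 2 i + 1` and `2` otherwise. -/
def weight (d i : ℕ) : ℕ := if 2 * i + 1 = d then 1 else 2

/-- `A = ∑ α_i #{(x,y) : x, y in the same class of P_i}`, over `1 ≤ i ≤ (d-1)/2`; the classes of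
the partition `P_i` of `Fin N` are the fibres of `a i`. -/
def pairsSum (d N : ℕ) (a : ℕ → Fin N → ℕ) : ℕ :=
  ∑ i ∈ Icc 1 ((d - 1) / 2),
    weight d i * (univ.filter (fun p : Fin N × Fin N => a i p.1 = a i p.2)).card

/-- `B = ∑ 2 i #(classes of P_i)`, over `1 ≤ i ≤ (d-1)/2`. -/
def cellsSum (d N : ℕ) (a : ℕ → Fin N → ℕ) : ℕ :=
  ∑ i ∈ Icc 1 ((d - 1) / 2), 2 * i * (univ.image (a i)).card

/-- Every class of `P_i` is contained in a class of `P_(i+1)`, `1 ≤ i < (d-1)/2`. -/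
def Nested (d N : ℕ) (a : ℕ → Fin N → ℕ) : Prop :=
  ∀ i, 1 ≤ i → i < (d - 1) / 2 → ∀ x y, a i x = a i y → a (i + 1) x = a (i + 1) y

/-- The constant `c_d`: the infimum of `2 √(A B) / N` over all `N ≥ 1` and all chains of partitions
`P_1, …, P_k` of a set with `N` elements, `k = ⌊(d-1)/2⌋`, each coarser than or equal to the one
before. -/
noncomputable def c (d : ℕ) : ℝ :=
  sInf {r : ℝ | ∃ (N : ℕ) (a : ℕ → Fin N → ℕ), 0 < N ∧ Nested d N a ∧
    r = 2 * √((pairsSum d N a : ℝ) * cellsSum d N a) / N}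

lemma c_eq (d : ℕ) : c d = Pool.Agent.Lib.MP_b0a977_co.Sharp.cd d := rfl

lemma ordered {n : ℕ} (G : SimpleGraph (Fin n)) :
    ∑ x, ∑ y, (G.dist x y : ℝ) = 2 * ∑ x, ∑ y ∈ univ.filter (fun y => x < y), (G.dist x y : ℝ) := by
  simp_rw [sum_filter]
  have h1 : ∀ x y : Fin n, (G.dist x y : ℝ) = (if x < y then (G.dist x y : ℝ) else 0)
      + (if y < x then (G.dist y x : ℝ) else 0) := by
    intro x y
    rcases lt_trichotomy x y with h | h | h
    · simp [h, not_lt_of_gt h]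
    · subst h; simp
    · simp [h, not_lt_of_gt h, SimpleGraph.dist_comm]
  have h2 : ∑ x, ∑ y, (G.dist x y : ℝ) = ∑ x, ∑ y, ((if x < y then (G.dist x y : ℝ) else 0)
      + (if y < x then (G.dist y x : ℝ) else 0)) :=
    sum_congr rfl fun x _ => sum_congr rfl fun y _ => h1 x y
  rw [h2]
  simp_rw [sum_add_distrib]
  have h3 : ∑ x, ∑ y, (if y < x then (G.dist y x : ℝ) else 0)
      = ∑ x, ∑ y, (if x < y then (G.dist x y : ℝ) else 0) := sum_comm
  rw [h3]; ring

/-- the deficiency of the average distance -/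
lemma avg_def {n : ℕ} (hn : 2 ≤ n) (d : ℕ) (G : SimpleGraph (Fin n)) :
    (d : ℝ) - (avgDist G : ℝ) = (∑ x, ∑ y, ((d : ℝ) - G.dist x y) - d * n) / (n * (n - 1)) := by
  have hn2 : (2 : ℝ) ≤ n := by exact_mod_cast hn
  have hch : ((n.choose 2 : ℕ) : ℝ) = n * (n - 1) / 2 := Nat.cast_choose_two ℝ n
  have h0 : (n : ℝ) ≠ 0 := by positivity
  have h0' : (n : ℝ) - 1 ≠ 0 := by linarith
  unfold avgDist
  push_cast
  rw [hch]
  have h1 : ∑ x : Fin n, ∑ y : Fin n, ((d : ℝ) - G.dist x y) = d * n * n - ∑ x, ∑ y, (G.dist x y : ℝ) := by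
    simp only [sum_sub_distrib, sum_const, card_univ, Fintype.card_fin, nsmul_eq_mul]
    ring
  rw [h1, ordered]
  field_simp
  ring

/-- the deficiency without the diagonal is nonnegative -/
lemma def_nonneg {n : ℕ} (d : ℕ) (G : SimpleGraph (Fin n)) (hd : ∀ x y, G.dist x y ≤ d) :
    0 ≤ ∑ x, ∑ y, ((d : ℝ) - G.dist x y) - d * n := by
  have h1 : ∑ x : Fin n, (d : ℝ) ≤ ∑ x, ∑ y, ((d : ℝ) - G.dist x y) := by
    apply sum_le_sum
    intro x _
    have h2 : ((d : ℝ) - G.dist x x) ≤ ∑ y, ((d : ℝ) - G.dist x y) := by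
      apply single_le_sum (f := fun y => (d : ℝ) - G.dist x y) _ (mem_univ x)
      intro y _
      have : (G.dist x y : ℝ) ≤ d := by exact_mod_cast hd x y
      linarith
    simpa using h2
  simp only [sum_const, card_univ, Fintype.card_fin, nsmul_eq_mul] at h1
  linarith

lemma dist_le_diam' {n : ℕ} (G : SimpleGraph (Fin n)) (hc : G.Connected) (x y : Fin n) :
    G.dist x y ≤ G.diam := by
  have : Nonempty (Fin n) := ⟨x⟩
  apply SimpleGraph.dist_le_diam
  exact SimpleGraph.connected_iff_ediam_ne_top.mp hc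

/-- the second order term, uniformly in `d ≥ 4` -/
lemma second_order (ε : ℝ) (hε : 0 < ε) : ∃ K : ℕ, ∀ n d : ℕ, 4 ≤ d → K * d ≤ n →
    ∃ M : ℚ, IsGreatest (averages n d) M ∧ |((d : ℝ) - M) - c d / √n| ≤ ε * (c d / √n) := by
  set δ : ℝ := min (ε / 4) 1 with hδ
  have hδ0 : 0 < δ := lt_min (by positivity) one_pos
  have hδa : δ ≤ ε / 4 := min_le_left _ _
  have hδb : δ ≤ 1 := min_le_right _ _
  obtain ⟨K1, hK1⟩ := Pool.Agent.Lib.MP_b0a977_co.Sharp.uniform
    Pool.Agent.Lib.MP_b0a977_co.H62.ubD δ hδ0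
  obtain ⟨K2, hK2⟩ := exists_nat_gt (4 / δ ^ 2 + 2 / δ)
  refine ⟨K1 + K2 + 1, fun n d hd hn => ?_⟩
  have hn1 : K1 * d ≤ n := (Nat.mul_le_mul_right d (by omega)).trans hn
  have hnn : (K2 + 1) * d ≤ n := (Nat.mul_le_mul_right d (by omega)).trans hn
  have hnK : K2 + 1 ≤ n := (Nat.le_mul_of_pos_right _ (by omega)).trans hnn
  have hn4' : 4 ≤ n := hd.trans ((Nat.le_mul_of_pos_left d (by omega)).trans hnn)
  have hd0 : (0 : ℝ) < d := by
    have : (4 : ℝ) ≤ d := by exact_mod_cast hd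
    linarith
  have hn4 : (4 : ℝ) ≤ n := by exact_mod_cast hn4'
  have hn0 : (0 : ℝ) < n := by linarith
  have hK2n : 4 / δ ^ 2 + 2 / δ ≤ (n : ℝ) - 1 := by
    have : ((K2 + 1 : ℕ) : ℝ) ≤ n := by exact_mod_cast hnK
    push_cast at this
    linarith
  have hδ1 : (0 : ℝ) < 4 / δ ^ 2 := by positivity
  have hδ2 : (0 : ℝ) < 2 / δ := by positivity
  have hnδ : 2 ≤ δ * ((n : ℝ) - 1) := by
    have h1 : 2 / δ ≤ (n : ℝ) - 1 := by linarith
    rw [div_le_iff₀ hδ0] at h1
    linarith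
  obtain ⟨t, ht0, ht⟩ : ∃ t : ℝ, 0 < t ∧ t ^ 2 = n := ⟨√n, Real.sqrt_pos.mpr hn0, Real.sq_sqrt hn0.le⟩
  have et : √(n : ℝ) = t := by rw [← ht, Real.sqrt_sq ht0.le]
  have htδ : 2 ≤ δ * t := by
    have h1 : 4 / δ ^ 2 ≤ (n : ℝ) := by linarith
    rw [div_le_iff₀ (by positivity), ← ht] at h1
    have h2 : (2 : ℝ) ^ 2 ≤ (δ * t) ^ 2 := by
      rw [mul_pow]; linarith
    exact abs_le_of_sq_le_sq' h2 (by positivity) |>.2
  have hc0 : 0 < c d := Pool.Agent.Lib.MP_b0a977_co.Sharp.cd_pos hd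
  have hcd : (d : ℝ) / 2 ≤ c d := Pool.Agent.Lib.MP_b0a977_co.Sharp.cd_ge_half hd
  obtain ⟨b, hb⟩ : ∃ b : ℝ, b = c d / √n := ⟨_, rfl⟩
  have hb0 : 0 < b := by rw [hb, et]; positivity
  have hbn : c d * (n * √(n : ℝ)) = b * n ^ 2 := by
    rw [hb, et, ← ht]
    field_simp
  -- the maximum
  obtain ⟨⟨G, hG1, hG2, hG3⟩, hlow⟩ := hK1 n d hd hn1
  have hfin : (averages n d).Finite := by
    have : averages n d ⊆ Set.range (fun G : SimpleGraph (Fin n) => avgDist G) := by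
      rintro m ⟨G, _, _, rfl⟩
      exact ⟨G, rfl⟩
    exact (Set.finite_range _).subset this
  obtain ⟨M, hM, hMmax⟩ := Set.exists_max_image (averages n d) id hfin ⟨_, G, hG1, hG2, rfl⟩
  refine ⟨M, ⟨hM, fun m hm => hMmax m hm⟩, ?_⟩
  rw [← c_eq, mul_assoc, hbn] at hG3
  rw [← hb, abs_le]
  constructor
  · -- lower bound for the deficiency
    obtain ⟨G', hc', hd', rfl⟩ := hM
    have hdist : ∀ x y, G'.dist x y ≤ d := fun x y => hd' ▸ dist_le_diam' G' hc' x y
    have h1 := hlow G' hc' hdist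
    rw [← c_eq, mul_assoc, hbn] at h1
    have h2 := def_nonneg d G' hdist
    rw [avg_def (by omega) d G']
    have h3 : (∑ x, ∑ y, ((d : ℝ) - G'.dist x y) - d * n) / (n ^ 2)
        ≤ (∑ x, ∑ y, ((d : ℝ) - G'.dist x y) - d * n) / (n * (n - 1)) := by
      apply div_le_div_of_nonneg_left h2
      · apply mul_pos hn0; linarith
      · rw [sq]
        exact mul_le_mul_of_nonneg_left (by linarith) hn0.le
    have h4 : (1 - δ) * b - d / n ≤ (∑ x, ∑ y, ((d : ℝ) - G'.dist x y) - d * n) / (n ^ 2) := by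
      rw [le_div_iff₀ (by positivity)]
      have : ((1 - δ) * b - d / n) * n ^ 2 = (1 - δ) * (b * n ^ 2) - d * n := by
        field_simp
      rw [this]
      linarith
    have h5 : (d : ℝ) / n ≤ δ * b := by
      rw [div_le_iff₀ hn0, hb, et, ← ht]
      have h6 : δ * (c d / t) * t ^ 2 = c d * (δ * t) := by
        field_simp
      rw [h6]
      calc (d : ℝ) ≤ c d * 2 := by linarith
        _ ≤ c d * (δ * t) := mul_le_mul_of_nonneg_left htδ hc0.le
    have h6 : δ * b ≤ ε / 4 * b := mul_le_mul_of_nonneg_right hδa hb0.le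
    have h7 : 0 ≤ ε * b := by positivity
    linarith
  · -- upper bound for the deficiency
    have h1 : avgDist G ≤ M := hMmax _ ⟨G, hG1, hG2, rfl⟩
    have h2 : (avgDist G : ℝ) ≤ M := by exact_mod_cast h1
    have h3 := avg_def (by omega) d G
    have h4 : (∑ x, ∑ y, ((d : ℝ) - G.dist x y) - d * n) / (n * (n - 1))
        ≤ (1 + ε) * b := by
      have hpos : (0 : ℝ) < n * (n - 1) := mul_pos hn0 (by linarith)
      rw [div_le_iff₀ hpos]
      have h5 : (1 + δ) * (b * n ^ 2) ≤ (1 + ε) * b * (n * (n - 1)) := by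
        have h6 : (1 + δ) * n ≤ (1 + ε) * (n - 1) := by
          have e1 : (1 + δ) * n = (1 + δ) * (n - 1) + (1 + δ) := by ring
          have e2 : 4 * δ * ((n : ℝ) - 1) ≤ ε * (n - 1) :=
            mul_le_mul_of_nonneg_right (by linarith) (by linarith)
          rw [e1]
          linarith
        have h7 : 0 ≤ b * n := by positivity
        calc (1 + δ) * (b * n ^ 2) = ((1 + δ) * n) * (b * n) := by ring
          _ ≤ ((1 + ε) * (n - 1)) * (b * n) := mul_le_mul_of_nonneg_right h6 h7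
          _ = _ := by ring
      have h6 : (0 : ℝ) ≤ d * n := by positivity
      linarith
    linarith

/-- The second order term of the maximum average distance `M(n,d)` of the connected graphs of
order `n` and diameter `d`: `d - M(n,d) = (c_d + o(1)) / √n` as `n/d → ∞`, uniformly in `d ≥ 4`,
with `c_4 = 4`, `c_5 = 8` and `c_d / d^(3/2) → κ`. -/
theorem result :
    (∀ ε : ℝ, 0 < ε → ∃ K : ℕ, ∀ n d : ℕ, 4 ≤ d → K * d ≤ n →
      ∃ M : ℚ, IsGreatest (averages n d) M ∧ |((d : ℝ) - M) - c d / √n| ≤ ε * (c d / √n)) ∧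
    c 4 = 4 ∧ c 5 = 8 ∧
    Filter.Tendsto (fun d : ℕ => c d / (d * √d)) Filter.atTop (nhds kappa) := by
  refine ⟨second_order, Pool.Agent.Lib.MP_b0a977_co.Sharp.cd_four,
    Pool.Agent.Lib.MP_b0a977_co.Sharp.cd_five, ?_⟩
  rw [Metric.tendsto_atTop]
  intro ε hε
  obtain ⟨K, hK⟩ := Pool.Agent.Lib.MP_b0a977_co.Sharp.cd_limit
    Pool.Agent.Lib.MP_b0a977_co.H62.ubD (ε / 2) (by positivity)
  refine ⟨K + 1, fun d hd => ?_⟩
  have hd0 : (0 : ℝ) < d := by exact_mod_cast (by omega : 0 < d)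
  have hs : 0 < (d : ℝ) * √(d : ℝ) := mul_pos hd0 (Real.sqrt_pos.mpr hd0)
  have h1 := hK d (by omega)
  have hkk : Pool.Agent.Lib.MP_b0a977_co.Sharp.kappa = kappa := rfl
  rw [hkk, ← c_eq] at h1
  rw [Real.dist_eq]
  have h2 : c d / (d * √(d : ℝ)) - kappa = (c d - kappa * (d * √(d : ℝ))) / (d * √(d : ℝ)) := by
    field_simp
  rw [h2, abs_div, abs_of_pos hs, div_lt_iff₀ hs]
  have h3 : ε / 2 * (d * √(d : ℝ)) < ε * (d * √(d : ℝ)) := mul_lt_mul_of_pos_right (by linarith) hs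
  linarith

end Pool.Agent.Results.MP_b0a977_co.SecondOrder
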